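import Pool.Agent.Helper83.CK.St

namespace Pool.Agent.Helper85.CK
open Pool.Agent.Helper83.CK Cardinal Set
universe u

theorem mP : StP.{u} := by
  classical
  intro α L M hLM hL hM
  obtain ⟨r, wo, hr⟩ := Cardinal.exists_ord_eq (M : Type u)
  have h1 : ∀ a : M, Nonempty ({b : M // r b a} ↪ L) := by
    intro a
    have h2 : #{b : M // r b a} < #M := by
      rw [← Ordinal.card_typein (r := r) a]
      exact Cardinal.card_typein_lt a hr
    rw [hM] at h2
    have h3 : #{b : M // r b a} ≤ #L := Order.lt_succ_iff.1 h2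
    exact Cardinal.le_def _ _ |>.1 h3
  let e : ∀ a : M, {b : M // r b a} ↪ L := fun a => (h1 a).some
  let h : (ℕ → α) → α := fun x =>
    if hx : ∃ (ha : x 0 ∈ M) (hb : x 1 ∈ M), r ⟨x 1, hb⟩ ⟨x 0, ha⟩ then
      (e ⟨x 0, hx.1⟩ ⟨⟨x 1, hx.2.1⟩, hx.2.2⟩ : L).1 else x 0
  refine ⟨h, ?_⟩
  intro A hA
  set ρ : Cardinal.{u} := max ℵ₀ #(A ∩ L : Set α) with hρ
  by_contra hcon
  push Not at hcon
  -- the elements of `A ∩ M`
  let S : Type u := {m : M // (m : α) ∈ A}
  have hS : #S = #(A ∩ M : Set α) := by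
    refine Cardinal.mk_congr ⟨fun m => ⟨m.1.1, m.2, m.1.2⟩, fun m => ⟨⟨m.1, m.2.2⟩, m.2.1⟩, ?_, ?_⟩
    · intro m; rfl
    · intro m; rfl
  let rS : S → S → Prop := fun a b => r a.1 b.1
  have : IsWellOrder S rS := (RelEmbedding.isWellOrder (r := rS) (s := r)
    ⟨⟨fun m => m.1, Subtype.val_injective⟩, Iff.rfl⟩)
  have hlt : (Order.succ ρ).ord < Ordinal.type rS := by
    rw [← not_le]
    intro hle
    have := Ordinal.card_le_card hle
    rw [Ordinal.card_type, Cardinal.card_ord, hS] at this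
    exact absurd this (not_le.2 hcon)
  obtain ⟨a, ha⟩ := Ordinal.typein_surj rS hlt
  have h4 : #{b : S // rS b a} = Order.succ ρ := by
    rw [← Ordinal.card_typein (r := rS) a, ha, Cardinal.card_ord]
  -- injection into `A ∩ L`
  let φ : {b : S // rS b a} → (A ∩ L : Set α) := fun b =>
    ⟨(e a.1 ⟨b.1.1, b.2⟩ : L).1, by
      refine ⟨?_, (e a.1 ⟨b.1.1, b.2⟩ : L).2⟩
      let x : ℕ → α := fun n => if n = 0 then (a.1 : α) else (b.1.1 : α)
      have hx : ∀ n, x n ∈ A := by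
        intro n
        by_cases hn : n = 0
        · simp only [x, hn, if_true]; exact a.2
        · simp only [x, hn, if_false]; exact b.1.2
      have hh := hA x hx
      have hc : ∃ (ha : x 0 ∈ M) (hb : x 1 ∈ M), r ⟨x 1, hb⟩ ⟨x 0, ha⟩ :=
        ⟨a.1.2, b.1.1.2, b.2⟩
      have : h x = (e a.1 ⟨b.1.1, b.2⟩ : L).1 := by
        simp only [h]
        rw [dif_pos hc]
        rfl
      rw [this] at hh
      exact hh⟩
  have hφ : Function.Injective φ := by
    intro b c hbc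
    have h5 : (e a.1 ⟨b.1.1, b.2⟩ : L).1 = (e a.1 ⟨c.1.1, c.2⟩ : L).1 :=
      congrArg (fun t : (A ∩ L : Set α) => (t : α)) hbc
    have h6 := (e a.1).injective (Subtype.ext h5)
    have h7 : b.1.1 = c.1.1 := congrArg (fun t : {m : M // r m a.1} => (t : M)) h6
    exact Subtype.ext (Subtype.ext h7)
  have h8 : #{b : S // rS b a} ≤ #(A ∩ L : Set α) := Cardinal.mk_le_of_injective hφ
  rw [h4] at h8
  have h9 : Order.succ ρ ≤ ρ := h8.trans (le_max_right _ _)
  exact absurd (Order.lt_succ ρ) (not_lt.2 h9)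

end Pool.Agent.Helper85.CK
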